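import Pool.Agent.Helper64.BKS.Stmts
import Pool.Agent.Helper98.REC.OVP

/-!
# BKS, module COR: the Galois closure of an abelian extension of exponent `ℓ`
-/

set_option autoImplicit false

open NumberField
open scoped Classical

namespace BKS

open BKA (Gal Zb Pl q Over Congr)

theorem cor_overP {F : Type} [Field F] [NumberField F] {v : Pl F} {𝔓 : Ideal (Zb F)} :
    Over v 𝔓 ↔ REC.OverP v 𝔓 :=
  ⟨fun h => ⟨h.1, fun x y hxy => (h.2 x y hxy).symm⟩,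
    fun h => ⟨h.1, fun x y hxy => (h.2 x y hxy).symm⟩⟩

/-- the elements of `N` on which all characters in `X` are trivial -/
def corW {F : Type} [Field F] {A : Type} [CommGroup A] (N : Subgroup (Gal F))
    (X : Finset (N →* A)) : Subgroup (Gal F) where
  carrier := {σ | ∃ h : σ ∈ N, ∀ χ ∈ X, χ ⟨σ, h⟩ = 1}
  mul_mem' := by
    rintro a b ⟨ha, ha'⟩ ⟨hb, hb'⟩
    refine ⟨N.mul_mem ha hb, fun χ hχ => ?_⟩
    have h : (⟨a * b, N.mul_mem ha hb⟩ : N) = ⟨a, ha⟩ * ⟨b, hb⟩ := rfl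
    rw [h, map_mul, ha' χ hχ, hb' χ hχ, one_mul]
  one_mem' := ⟨N.one_mem, fun χ _ => map_one χ⟩
  inv_mem' := by
    rintro a ⟨ha, ha'⟩
    refine ⟨N.inv_mem ha, fun χ hχ => ?_⟩
    have h : (⟨a⁻¹, N.inv_mem ha⟩ : N) = (⟨a, ha⟩ : N)⁻¹ := rfl
    rw [h, map_inv, ha' χ hχ, inv_one]

theorem mem_corW {F : Type} [Field F] {A : Type} [CommGroup A] {N : Subgroup (Gal F)}
    {X : Finset (N →* A)} {σ : Gal F} :
    σ ∈ corW N X ↔ ∃ h : σ ∈ N, ∀ χ ∈ X, χ ⟨σ, h⟩ = 1 := Iff.rfl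

theorem corW_open {F : Type} [Field F] {A : Type} [CommGroup A] {N : Subgroup (Gal F)}
    (hN : IsOpen (N : Set (Gal F))) {X : Finset (N →* A)} (hX : ∀ χ ∈ X, Cont χ) :
    IsOpen (corW N X : Set (Gal F)) := by
  have h1 : ∀ χ : N →* A, ∃ M : Subgroup (Gal F), IsOpen (M : Set (Gal F)) ∧
      (χ ∈ X → ∀ (σ : Gal F) (h : σ ∈ N), σ ∈ M → χ ⟨σ, h⟩ = 1) := by
    intro χ
    by_cases hχ : χ ∈ X
    · obtain ⟨M, hM, hM'⟩ := hX χ hχ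
      exact ⟨M, hM, fun _ => hM'⟩
    · exact ⟨⊤, isOpen_univ, fun h => absurd h hχ⟩
  choose M hM hM' using h1
  have h2 : IsOpen ((N : Set (Gal F)) ∩ ⋂ χ ∈ X, (M χ : Set (Gal F))) :=
    hN.inter (isOpen_biInter_finset fun χ _ => hM χ)
  refine Subgroup.isOpen_of_mem_nhds (corW N X) (g := 1) ?_
  refine Filter.mem_of_superset (h2.mem_nhds ⟨N.one_mem, ?_⟩) ?_
  · simp only [Set.mem_iInter]
    intro χ _
    exact (M χ).one_mem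
  · rintro σ ⟨hσN, hσ⟩
    simp only [Set.mem_iInter] at hσ
    exact ⟨hσN, fun χ hχ => hM' χ hχ σ hσN (hσ χ hχ)⟩

/-- conjugation does not change a character with commutative values -/
theorem cor_conj {F : Type} [Field F] {A : Type} [CommGroup A] {N : Subgroup (Gal F)}
    (χ : N →* A) {n σ : Gal F} (hn : n ∈ N) (hσ : σ ∈ N) (h : n * σ * n⁻¹ ∈ N) :
    χ ⟨n * σ * n⁻¹, h⟩ = χ ⟨σ, hσ⟩ := by
  have h1 : (⟨n * σ * n⁻¹, h⟩ : N) = ⟨n, hn⟩ * ⟨σ, hσ⟩ * (⟨n, hn⟩ : N)⁻¹ := rfl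
  rw [h1, map_mul, map_mul, map_inv, mul_comm (χ ⟨n, hn⟩), mul_inv_cancel_right]

theorem st_COR : ST_COR := by
  intro F _ _ A N hN
  have hovp := REC.st_OVP F
  choose P hP using hovp.1
  have hnorm : N.Normal := hN.normal
  have hfin : Finite (Gal F ⧸ N) := Subgroup.quotient_finite_of_isOpen N hN.isOpen
  have hft : Fintype (Gal F ⧸ N) := Fintype.ofFinite _
  choose im him using fun (g : Gal F) (𝔓 : Ideal (Zb F)) => Tr.exists g 𝔓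
  let Q : Finset (Ideal (Zb F)) := A.biUnion fun v =>
    (Finset.univ : Finset (Gal F ⧸ N)).image fun x => im x.out (P v)
  have hQ1 : ∀ 𝔔 ∈ Q, ∃ v ∈ A, Over v 𝔔 := by
    intro 𝔔 h𝔔
    obtain ⟨v, hv, h1⟩ := Finset.mem_biUnion.1 h𝔔
    obtain ⟨x, -, rfl⟩ := Finset.mem_image.1 h1
    exact ⟨v, hv, (him x.out (P v)).over (cor_overP.2 (hP v))⟩
  have hQ2 : ∀ v ∈ A, ∀ 𝔓 : Ideal (Zb F), Over v 𝔓 → ∃ n ∈ N, ∃ 𝔔 ∈ Q, Tr n 𝔓 𝔔 := by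
    intro v hv 𝔓 h𝔓
    obtain ⟨g, hg⟩ := hovp.2.2.2.2.2.1 v (P v) 𝔓 (hP v) (cor_overP.1 h𝔓)
    have hg' : Tr g (P v) 𝔓 := hg
    obtain ⟨m, hm⟩ := QuotientGroup.mk_out_eq_mul N g
    refine ⟨(g : Gal F ⧸ N).out * g⁻¹, ?_, im (g : Gal F ⧸ N).out (P v), ?_, ?_⟩
    · rw [hm]
      exact hnorm.conj_mem _ m.2 g
    · exact Finset.mem_biUnion.2 ⟨v, hv, Finset.mem_image.2 ⟨_, Finset.mem_univ _, rfl⟩⟩
    · exact hg'.inv.mul (him _ _)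
  refine ⟨Q, hQ1, ?_⟩
  intro ℓ X hℓ hX
  have hcomm : ∀ (a b : Gal F), a ∈ N → b ∈ N → a * b * a⁻¹ * b⁻¹ ∈ corW N X := by
    intro a b ha hb
    refine ⟨N.mul_mem (N.mul_mem (N.mul_mem ha hb) (N.inv_mem ha)) (N.inv_mem hb), ?_⟩
    intro χ hχ
    have h1 : (⟨a * b * a⁻¹ * b⁻¹, N.mul_mem (N.mul_mem (N.mul_mem ha hb) (N.inv_mem ha))
        (N.inv_mem hb)⟩ : N) = ⟨a, ha⟩ * ⟨b, hb⟩ * (⟨a, ha⟩ : N)⁻¹ * (⟨b, hb⟩ : N)⁻¹ := rfl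
    rw [h1, map_mul, map_mul, map_mul, map_inv, map_inv, mul_comm (χ ⟨a, ha⟩),
      mul_inv_cancel_right, mul_inv_cancel]
  have hpow : ∀ a ∈ N, a ^ ℓ ∈ corW N X := by
    intro a ha
    refine ⟨N.pow_mem ha ℓ, ?_⟩
    intro χ hχ
    have h1 : (⟨a ^ ℓ, N.pow_mem ha ℓ⟩ : N) = (⟨a, ha⟩ : N) ^ ℓ := rfl
    rw [h1, map_pow]
    apply Multiplicative.toAdd.injective
    rw [toAdd_pow, toAdd_one, nsmul_eq_mul, ZMod.natCast_self, zero_mul]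
  have hle : (corW N X).normalCore ≤ N := by
    intro σ hσ
    exact ((corW N X).normalCore_le hσ).1
  have hW : IsOpen (corW N X : Set (Gal F)) := corW_open hN.isOpen fun χ hχ => (hX χ hχ).1
  have hcore : ∀ σ : Gal F, (∀ b : Gal F, b * σ * b⁻¹ ∈ corW N X) → σ ∈ (corW N X).normalCore :=
    fun σ h => h
  have hcommN : ∀ σ ∈ N, ∀ τ ∈ N, σ * τ * σ⁻¹ * τ⁻¹ ∈ (corW N X).normalCore := by
    intro σ hσ τ hτ
    apply hcore
    intro b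
    have h1 : b * (σ * τ * σ⁻¹ * τ⁻¹) * b⁻¹ =
        (b * σ * b⁻¹) * (b * τ * b⁻¹) * (b * σ * b⁻¹)⁻¹ * (b * τ * b⁻¹)⁻¹ := by group
    rw [h1]
    exact hcomm _ _ (hnorm.conj_mem _ hσ b) (hnorm.conj_mem _ hτ b)
  refine ⟨(corW N X).normalCore, hle, ⟨?_, ?_, ?_, ?_, ?_⟩, ?_, ?_, hcommN⟩
  · exact Subgroup.normalCore_normal _
  · have hfq : Finite (Gal F ⧸ corW N X) := Subgroup.quotient_finite_of_isOpen _ hW
    have hfi : (corW N X).FiniteIndex := Subgroup.finiteIndex_of_finite_quotient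
    exact Subgroup.isOpen_of_isClosed_of_finiteIndex _
      ((corW N X).normalCore_isClosed (Subgroup.isClosed_of_isOpen _ hW))
  · obtain ⟨r, hr⟩ := hN.solv
    refine ⟨r + 1, ?_⟩
    rw [derivedSeries_succ, Subgroup.commutator_le]
    intro g₁ h₁ g₂ h₂
    exact hcommN g₁ (hr h₁) g₂ (hr h₂)
  · intro c hc
    apply hcore
    intro b
    have h1 : CC (b * c * b⁻¹) := by
      have h2 := hc.conj b⁻¹
      rwa [inv_inv] at h2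
    have h3 := hN.cc _ h1
    exact ⟨h3, fun χ hχ => (hX χ hχ).2.2 _ h3 h1⟩
  · intro v hv 𝔓 h𝔓 σ hσ
    apply hcore
    intro b
    have h1 : b * σ * b⁻¹ ∈ N := hnorm.conj_mem _ (hN.split v hv 𝔓 h𝔓 hσ) b
    refine ⟨h1, fun χ hχ => ?_⟩
    obtain ⟨n, hn, 𝔔, h𝔔, hT⟩ := hQ2 v hv (im b 𝔓) ((him b 𝔓).over h𝔓)
    have h2 : b * σ * b⁻¹ ∈ Dec (im b 𝔓) := ((him b 𝔓).dec σ).2 hσ
    have h3 : n * (b * σ * b⁻¹) * n⁻¹ ∈ Dec 𝔔 := (hT.dec _).2 h2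
    have h4 : n * (b * σ * b⁻¹) * n⁻¹ ∈ N := hnorm.conj_mem _ h1 n
    have h5 := (hX χ hχ).2.1 𝔔 h𝔔 _ h4 h3
    rw [cor_conj χ hn h1 h4] at h5
    exact h5
  · intro χ hχ σ h hσ
    obtain ⟨h', h2⟩ := (corW N X).normalCore_le hσ
    exact h2 χ hχ
  · intro σ hσ
    apply hcore
    intro b
    have h1 : b * σ ^ ℓ * b⁻¹ = (b * σ * b⁻¹) ^ ℓ := by
      rw [conj_pow]
    rw [h1]
    exact hpow _ (hnorm.conj_mem _ hσ b)

end BKS
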